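import Pool.Agent.N949.TR.Stm

/-!
# Project TR (helper949), part ANA (worker: helper477)
-/

set_option autoImplicit false

namespace Pool.Agent.N477.TR

open Finset
open Pool.Agent.N949.TR

noncomputable section

/-- iterated differences -/
def D : ℕ → (ℕ → ℝ) → ℕ → ℝ
  | 0, f => f
  | l + 1, f => D l (fun t => f (t + 1) - f t)

theorem D_add (l : ℕ) : ∀ (f g : ℕ → ℝ) (t : ℕ),
    D l (fun s => f s + g s) t = D l f t + D l g t := by
  induction l with
  | zero => intro f g t; rfl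
  | succ l ih =>
    intro f g t
    show D l (fun s => (f (s + 1) + g (s + 1)) - (f s + g s)) t =
      D l (fun s => f (s + 1) - f s) t + D l (fun s => g (s + 1) - g s) t
    rw [← ih]
    congr 1
    funext s
    ring

theorem D_smul (c : ℝ) (l : ℕ) : ∀ (f : ℕ → ℝ) (t : ℕ), D l (fun s => c * f s) t = c * D l f t := by
  induction l with
  | zero => intro f t; rfl
  | succ l ih =>
    intro f t
    show D l (fun s => c * f (s + 1) - c * f s) t = c * D l (fun s => f (s + 1) - f s) t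
    rw [← ih]
    congr 1
    funext s
    ring

theorem D_shift (l : ℕ) : ∀ (f : ℕ → ℝ) (t : ℕ), D l (fun s => f (s + 1)) t = D l f (t + 1) := by
  induction l with
  | zero => intro f t; rfl
  | succ l ih =>
    intro f t
    exact ih (fun s => f (s + 1) - f s) t

theorem D_succ' (l : ℕ) (f : ℕ → ℝ) (t : ℕ) : D (l + 1) f t = D l f (t + 1) - D l f t := by
  have h0 : D (l + 1) f t = D l (fun s => f (s + 1) - f s) t := rfl
  have h : (fun s => f (s + 1) - f s) = (fun s => f (s + 1) + (-1) * f s) := by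
    funext s
    ring
  rw [h0, h, D_add, D_smul, D_shift]
  ring

theorem D_null (l : ℕ) (t : ℕ) : D l (fun _ => (0 : ℝ)) t = 0 := by
  induction l with
  | zero => rfl
  | succ l ih =>
    rw [D_succ']
    have h : D l (fun _ => (0 : ℝ)) (t + 1) = D l (fun _ => (0 : ℝ)) t := by
      rw [← D_shift]
    rw [h, sub_self]

theorem D_const (l : ℕ) (c : ℝ) (t : ℕ) : D (l + 1) (fun _ => c) t = 0 := by
  have h : D (l + 1) (fun _ => c) t = D l (fun _ => c - c) t := rfl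
  rw [h, sub_self]
  exact D_null l t

theorem D_eq_fwd (l : ℕ) : ∀ f : ℕ → ℝ, D l f = (fwdDiff 1)^[l] f := by
  induction l with
  | zero => intro f; rfl
  | succ l ih =>
    intro f
    rw [Function.iterate_succ_apply]
    exact ih _

theorem D_sum (k : ℕ) (f : ℕ → ℝ) (t : ℕ) :
    |∑ d ∈ range (k + 1), (-1 : ℝ) ^ d * (k.choose d : ℝ) * f (t + d)| = |D k f t| := by
  rw [D_eq_fwd, fwdDiff_iter_eq_sum_shift]
  have h2 : ∑ d ∈ range (k + 1), (-1 : ℝ) ^ d * (k.choose d : ℝ) * f (t + d) =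
      (-1) ^ k * ∑ d ∈ range (k + 1), ((-1 : ℤ) ^ (k - d) * k.choose d) • f (t + d • 1) := by
    rw [mul_sum]
    refine sum_congr rfl fun d hd => ?_
    have hdk : d ≤ k := by
      rw [mem_range] at hd
      omega
    rw [zsmul_eq_mul]
    push_cast
    rw [smul_eq_mul, mul_one]
    have h3 : (-1 : ℝ) ^ k = (-1) ^ (k - d) * (-1) ^ d := by
      rw [← pow_add]
      congr 1
      omega
    have h4 : (-1 : ℝ) ^ (k - d) * (-1) ^ (k - d) = 1 := by
      rw [← mul_pow]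
      norm_num
    rw [h3]
    linear_combination (-((-1 : ℝ) ^ d * (k.choose d : ℝ) * f (t + d))) * h4
  rw [h2, abs_mul, abs_pow, abs_neg, abs_one, one_pow, one_mul]

/-- the Leibniz rule as a bound -/
theorem leib (ε : ℝ) (hε : 0 ≤ ε) : ∀ (l n : ℕ) (f g : ℕ → ℝ) (α β : ℝ), 0 ≤ α → 0 ≤ β →
    (∀ a t, a + t ≤ n → |D a f t| ≤ α * ε ^ a) → (∀ a t, a + t ≤ n → |D a g t| ≤ β * ε ^ a) →
    ∀ t, l + t ≤ n → |D l (fun s => f s * g s) t| ≤ 2 ^ l * (α * β) * ε ^ l := by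
  intro l
  induction l with
  | zero =>
    intro n f g α β hα hβ hf hg t ht
    have h1 := hf 0 t ht
    have h2 := hg 0 t ht
    show |f t * g t| ≤ _
    have h1' : |f t| ≤ α * ε ^ 0 := h1
    have h2' : |g t| ≤ β * ε ^ 0 := h2
    rw [pow_zero, mul_one] at h1' h2'
    rw [abs_mul, pow_zero, pow_zero, one_mul, mul_one]
    exact mul_le_mul h1' h2' (abs_nonneg _) hα
  | succ l ih =>
    intro n f g α β hα hβ hf hg t ht
    have e : D (l + 1) (fun s => f s * g s) t =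
        D l (fun s => (f (s + 1) - f s) * g (s + 1)) t + D l (fun s => f s * (g (s + 1) - g s)) t := by
      rw [← D_add]
      show D l (fun s => f (s + 1) * g (s + 1) - f s * g s) t = _
      congr 1
      funext s
      ring
    rw [e]
    have h1 := ih (n - 1) (fun s => f (s + 1) - f s) (fun s => g (s + 1)) (α * ε) β
      (mul_nonneg hα hε) hβ (fun a s has => by
        have h2 := hf (a + 1) s (by omega)
        refine le_trans h2 (le_of_eq ?_)
        rw [pow_succ]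
        ring) (fun a s has => by
        rw [D_shift]
        exact hg a (s + 1) (by omega)) t (by omega)
    have h2 := ih (n - 1) f (fun s => g (s + 1) - g s) α (β * ε) hα (mul_nonneg hβ hε)
      (fun a s has => hf a s (by omega)) (fun a s has => by
        have h3 := hg (a + 1) s (by omega)
        refine le_trans h3 (le_of_eq ?_)
        rw [pow_succ]
        ring) t (by omega)
    refine (abs_add_le _ _).trans ((add_le_add h1 h2).trans (le_of_eq ?_))
    rw [pow_succ, pow_succ]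
    ring

theorem D_inv (c : ℝ) (hc : 0 < c) (l : ℕ) : ∀ t : ℕ, D l (fun s => 1 / (c + s)) t =
    (-1) ^ l * (l.factorial : ℝ) / ∏ e ∈ range (l + 1), (c + t + e) := by
  induction l with
  | zero =>
    intro t
    show 1 / (c + t) = _
    simp
  | succ l ih =>
    intro t
    rw [D_succ', ih, ih]
    have hpos : ∀ (m : ℕ), (0 : ℝ) < c + t + m := by
      intro m
      positivity
    have h1 : ∏ e ∈ range (l + 1 + 1), (c + t + e) =
        (∏ e ∈ range (l + 1), (c + t + e)) * (c + t + ((l + 1 : ℕ) : ℝ)) := prod_range_succ _ _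
    have h2 : ∏ e ∈ range (l + 1 + 1), (c + t + e) =
        (∏ e ∈ range (l + 1), (c + ((t + 1 : ℕ) : ℝ) + e)) * (c + t) := by
      rw [prod_range_succ']
      congr 1
      · refine prod_congr rfl fun e _ => ?_
        push_cast
        ring
      · push_cast
        ring
    obtain ⟨P, hP⟩ : ∃ P : ℝ, P = ∏ e ∈ range (l + 1), (c + t + e) := ⟨_, rfl⟩
    obtain ⟨P', hP'⟩ : ∃ P' : ℝ, P' = ∏ e ∈ range (l + 1), (c + ((t + 1 : ℕ) : ℝ) + e) := ⟨_, rfl⟩
    have hP0 : 0 < P := by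
      rw [hP]
      exact prod_pos fun e _ => hpos e
    have hP'0 : 0 < P' := by
      rw [hP']
      exact prod_pos fun e _ => by positivity
    have hct : (0 : ℝ) < c + t := by positivity
    rw [← hP] at h1
    rw [← hP'] at h2
    rw [← hP, ← hP']
    have h3 : P * (c + t + ((l + 1 : ℕ) : ℝ)) = P' * (c + t) := by rw [← h1, h2]
    rw [h1]
    have h4 : (0 : ℝ) < c + t + ((l + 1 : ℕ) : ℝ) := hpos (l + 1)
    rw [Nat.factorial_succ]
    have h5 : (-1 : ℝ) ^ l * (l.factorial : ℝ) / P' =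
        (-1) ^ l * (l.factorial : ℝ) * (c + t) / (P * (c + t + ((l + 1 : ℕ) : ℝ))) := by
      rw [h3, mul_div_mul_right _ _ hct.ne']
    rw [h5]
    have h6 : (-1 : ℝ) ^ l * (l.factorial : ℝ) / P =
        (-1) ^ l * (l.factorial : ℝ) * (c + t + ((l + 1 : ℕ) : ℝ)) /
          (P * (c + t + ((l + 1 : ℕ) : ℝ))) := by
      rw [mul_div_mul_right _ _ h4.ne']
    rw [h6, ← sub_div]
    congr 1
    push_cast
    ring

/-- the factor of the ratio -/
def AA (S i : ℕ) (t : ℕ) : ℝ := ((S : ℝ) + 1) / ((i : ℝ) + 1 + t) - 1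

theorem AA_eq (S i t : ℕ) : AA S i t = ((S : ℝ) - i - t) / ((i : ℝ) + t + 1) := by
  unfold AA
  have h : (0 : ℝ) < (i : ℝ) + t + 1 := by positivity
  have h' : (0 : ℝ) < (i : ℝ) + 1 + t := by positivity
  rw [div_sub_one h'.ne', div_eq_div_iff h'.ne' h.ne']
  ring

theorem AA_nonneg (S i t : ℕ) (h : i + t ≤ S) : 0 ≤ AA S i t := by
  rw [AA_eq]
  have h1 : ((i + t : ℕ) : ℝ) ≤ S := by exact_mod_cast h
  push_cast at h1
  exact div_nonneg (by linarith) (by positivity)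

theorem AA_bound (k κ S i R : ℕ) (hκ : 1 ≤ κ) (hR : 1 ≤ R) (h1 : S ≤ κ * i)
    (h2 : R ^ 2 ≤ i) (h3 : i + (R + k) ≤ S) (l t : ℕ) (hlt : l + t ≤ k) :
    |D l (fun s => AA S i (R + s)) t| ≤ κ * (k.factorial : ℝ) * (1 / (R : ℝ) ^ 2) ^ l := by
  obtain ⟨c, hc⟩ : ∃ c : ℝ, c = (i : ℝ) + 1 + R := ⟨_, rfl⟩
  have hc0 : 0 < c := by rw [hc]; positivity
  have hκ0 : (1 : ℝ) ≤ κ := by exact_mod_cast hκ
  have hR0 : (0 : ℝ) < R := by exact_mod_cast hR
  have hMc : ((S : ℝ) + 1) / c ≤ κ := by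
    rw [div_le_iff₀ hc0, hc]
    have h4 : (S : ℝ) ≤ κ * i := by exact_mod_cast h1
    nlinarith
  have hcR : 1 / c ≤ 1 / (R : ℝ) ^ 2 := by
    refine one_div_le_one_div_of_le (by positivity) ?_
    have h4 : (R : ℝ) ^ 2 ≤ i := by exact_mod_cast h2
    rw [hc]
    linarith
  have hf1 : (1 : ℝ) ≤ k.factorial := by exact_mod_cast Nat.one_le_iff_ne_zero.2 k.factorial_ne_zero
  rcases Nat.eq_zero_or_pos l with hl | hl
  · subst hl
    show |AA S i (R + t)| ≤ _
    rw [abs_of_nonneg (AA_nonneg S i (R + t) (by omega)), pow_zero, mul_one]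
    have h4 : AA S i (R + t) ≤ ((S : ℝ) + 1) / c := by
      unfold AA
      have h5 : ((S : ℝ) + 1) / ((i : ℝ) + 1 + ((R + t : ℕ) : ℝ)) ≤ ((S : ℝ) + 1) / c := by
        refine div_le_div_of_nonneg_left (by positivity) hc0 ?_
        rw [hc]
        push_cast
        have : (0 : ℝ) ≤ t := Nat.cast_nonneg _
        linarith
      linarith
    calc AA S i (R + t) ≤ κ := h4.trans hMc
      _ ≤ κ * (k.factorial : ℝ) := le_mul_of_one_le_right (by linarith) hf1
  · obtain ⟨m, rfl⟩ : ∃ m, l = m + 1 := ⟨l - 1, by omega⟩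
    have h4 : (fun s => AA S i (R + s)) = fun s : ℕ => ((S : ℝ) + 1) * (1 / (c + s)) + (-1) := by
      funext s
      unfold AA
      rw [hc]
      push_cast
      ring
    rw [h4, D_add, D_const, add_zero, D_smul, D_inv c hc0]
    rw [abs_mul, abs_div, abs_mul, abs_pow, abs_neg, abs_one, one_pow, one_mul,
      abs_of_nonneg (by positivity : (0 : ℝ) ≤ (S : ℝ) + 1),
      abs_of_nonneg (by positivity : (0 : ℝ) ≤ ((m + 1).factorial : ℝ))]
    have h5 : c ^ (m + 1 + 1) ≤ |∏ e ∈ range (m + 1 + 1), (c + t + e)| := by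
      rw [abs_of_nonneg (prod_nonneg fun e _ => by positivity)]
      calc c ^ (m + 1 + 1) = ∏ e ∈ range (m + 1 + 1), c := by rw [prod_const, card_range]
        _ ≤ _ := prod_le_prod (fun _ _ => hc0.le) fun e _ => by
            have : (0 : ℝ) ≤ (t : ℝ) + e := by positivity
            linarith
    have h6 : ((m + 1).factorial : ℝ) ≤ k.factorial := by
      exact_mod_cast Nat.factorial_le (by omega)
    calc ((S : ℝ) + 1) * (((m + 1).factorial : ℝ) / |∏ e ∈ range (m + 1 + 1), (c + t + e)|)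
        ≤ ((S : ℝ) + 1) * ((k.factorial : ℝ) / c ^ (m + 1 + 1)) := by
          refine mul_le_mul_of_nonneg_left ?_ (by positivity)
          exact div_le_div₀ (by positivity) h6 (by positivity) h5
      _ = (((S : ℝ) + 1) / c) * (k.factorial : ℝ) * (1 / c) ^ (m + 1) := by
          rw [pow_succ c (m + 1), one_div, inv_pow]
          field_simp
      _ ≤ κ * (k.factorial : ℝ) * (1 / (R : ℝ) ^ 2) ^ (m + 1) := by
          refine mul_le_mul (mul_le_mul_of_nonneg_right hMc (by positivity))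
            (pow_le_pow_left₀ (by positivity) hcR _) (by positivity) (by positivity)

/-- the factors vary slowly -/
theorem AA_slow (S i R t e : ℕ) (hR : 1 ≤ R) (h1 : 10 * R ^ 2 ≤ i) (h2 : i + 10 * R ^ 2 ≤ S)
    (he : e ≤ R) (hte : t + e ≤ 2 * R) :
    (1 - 1 / (8 * (R : ℝ))) ^ 2 * AA S i t ≤ AA S i (t + e) := by
  have hR1 : (1 : ℝ) ≤ R := by exact_mod_cast hR
  have hR0 : (0 : ℝ) < R := by linarith
  have h1' : 10 * (R : ℝ) ^ 2 ≤ i := by exact_mod_cast h1
  have h2' : (i : ℝ) + 10 * (R : ℝ) ^ 2 ≤ S := by exact_mod_cast h2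
  have he' : (e : ℝ) ≤ R := by exact_mod_cast he
  have hte' : (t : ℝ) + e ≤ 2 * R := by exact_mod_cast hte
  have ht0 : (0 : ℝ) ≤ t := Nat.cast_nonneg _
  have he0 : (0 : ℝ) ≤ e := Nat.cast_nonneg _
  obtain ⟨δ, hδ⟩ : ∃ δ : ℝ, δ = 1 / (8 * (R : ℝ)) := ⟨_, rfl⟩
  have hδR : δ * (8 * R) = 1 := by
    rw [hδ]
    field_simp
  have hδ0 : 0 < δ := by rw [hδ]; positivity
  have hδ1 : δ ≤ 1 := by nlinarith
  rw [← hδ, AA_eq, AA_eq]
  push_cast
  have hR2 : (R : ℝ) ≤ (R : ℝ) ^ 2 := by nlinarith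
  have h3 : (1 - δ) * ((S : ℝ) - i - t) ≤ (S : ℝ) - i - (t + e) := by
    have h4 : 8 * (R : ℝ) ^ 2 ≤ (S : ℝ) - i - t := by nlinarith
    have h5 : (R : ℝ) ≤ δ * ((S : ℝ) - i - t) := by
      have h6 : δ * (8 * (R : ℝ) ^ 2) = R := by
        calc δ * (8 * (R : ℝ) ^ 2) = δ * (8 * R) * R := by ring
          _ = R := by rw [hδR, one_mul]
      calc (R : ℝ) = δ * (8 * (R : ℝ) ^ 2) := h6.symm
        _ ≤ _ := mul_le_mul_of_nonneg_left h4 hδ0.le
    nlinarith
  have h4 : (1 - δ) * ((i : ℝ) + (t + e) + 1) ≤ (i : ℝ) + t + 1 := by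
    have h5 : (R : ℝ) ≤ δ * ((i : ℝ) + (t + e) + 1) := by
      have h6 : δ * (8 * (R : ℝ) ^ 2) = R := by
        calc δ * (8 * (R : ℝ) ^ 2) = δ * (8 * R) * R := by ring
          _ = R := by rw [hδR, one_mul]
      calc (R : ℝ) = δ * (8 * (R : ℝ) ^ 2) := h6.symm
        _ ≤ _ := mul_le_mul_of_nonneg_left (by nlinarith) hδ0.le
    nlinarith
  have h5 : (0 : ℝ) < (i : ℝ) + t + 1 := by positivity
  have h6 : (0 : ℝ) < (i : ℝ) + (t + e) + 1 := by positivity
  have h7 : 0 ≤ (S : ℝ) - i - t := by nlinarith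
  rw [← mul_div_assoc, div_le_div_iff₀ h5 h6]
  calc (1 - δ) ^ 2 * ((S : ℝ) - i - t) * ((i : ℝ) + (t + e) + 1)
      = ((1 - δ) * ((S : ℝ) - i - t)) * ((1 - δ) * ((i : ℝ) + (t + e) + 1)) := by ring
    _ ≤ ((S : ℝ) - i - (t + e)) * ((i : ℝ) + t + 1) := by
        refine mul_le_mul h3 h4 (mul_nonneg (by linarith) h6.le) ?_
        have : 0 ≤ (1 - δ) * ((S : ℝ) - i - t) := mul_nonneg (by linarith) h7
        linarith

/-- the ratio of consecutive sizes -/
def rr (S S' i j : ℕ) (t : ℕ) : ℝ := AA S i t * AA S' (S' - j) t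

theorem bn_succ (S S' i j t : ℕ) (h1 : i + t ≤ S) (h2 : t + 1 ≤ j) (h3 : j ≤ S') :
    bn S S' i j (t + 1) = rr S S' i j t * bn S S' i j t := by
  unfold bn rr
  rw [AA_eq, AA_eq]
  have e1 := Nat.choose_succ_right_eq S (i + t)
  have e2 := Nat.choose_succ_right_eq S' (j - (t + 1))
  have e3 : j - (t + 1) + 1 = j - t := by omega
  rw [e3] at e2
  have f1 : (S.choose (i + (t + 1)) : ℝ) * ((i : ℝ) + t + 1) =
      (S.choose (i + t) : ℝ) * ((S : ℝ) - i - t) := by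
    have h4 : ((S.choose (i + t + 1) * (i + t + 1) : ℕ) : ℝ) =
        ((S.choose (i + t) * (S - (i + t)) : ℕ) : ℝ) := by exact_mod_cast e1
    rw [Nat.cast_mul, Nat.cast_mul, Nat.cast_sub h1] at h4
    push_cast at h4
    have h5 : i + (t + 1) = i + t + 1 := by ring
    rw [h5]
    linear_combination h4
  have f2 : (S'.choose (j - t) : ℝ) * ((j : ℝ) - t) =
      (S'.choose (j - (t + 1)) : ℝ) * ((S' : ℝ) - j + t + 1) := by
    have h4 : ((S'.choose (j - t) * (j - t) : ℕ) : ℝ) =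
        ((S'.choose (j - (t + 1)) * (S' - (j - (t + 1))) : ℕ) : ℝ) := by exact_mod_cast e2
    rw [Nat.cast_mul, Nat.cast_mul, Nat.cast_sub (by omega : t ≤ j),
      Nat.cast_sub (by omega : j - (t + 1) ≤ S'), Nat.cast_sub h2] at h4
    push_cast at h4
    linear_combination h4
  have g1 : (0 : ℝ) < (i : ℝ) + t + 1 := by positivity
  have g2 : (0 : ℝ) < ((S' - j : ℕ) : ℝ) + t + 1 := by positivity
  have g3 : ((S' - j : ℕ) : ℝ) = (S' : ℝ) - j := by rw [Nat.cast_sub h3]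
  rw [g3] at g2 ⊢
  rw [div_mul_div_comm, div_mul_eq_mul_div, eq_div_iff (mul_pos g1 g2).ne']
  have g4 : (S' : ℝ) - ((S' : ℝ) - j) - t = (j : ℝ) - t := by ring
  rw [g4]
  calc (S.choose (i + (t + 1)) : ℝ) * (S'.choose (j - (t + 1)) : ℝ) *
        (((i : ℝ) + t + 1) * ((S' : ℝ) - j + t + 1))
      = ((S.choose (i + (t + 1)) : ℝ) * ((i : ℝ) + t + 1)) *
        ((S'.choose (j - (t + 1)) : ℝ) * ((S' : ℝ) - j + t + 1)) := by ring
    _ = ((S.choose (i + t) : ℝ) * ((S : ℝ) - i - t)) * ((S'.choose (j - t) : ℝ) * ((j : ℝ) - t)) := by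
        rw [f1, f2]
    _ = _ := by ring

/-- `D k (a) = a * b k` -/
def bb (ρ : ℕ → ℝ) : ℕ → ℕ → ℝ
  | 0 => fun _ => 1
  | m + 1 => fun t => ρ t * bb ρ m (t + 1) + (bb ρ m (t + 1) - bb ρ m t)

theorem D_bb (a ρ : ℕ → ℝ) (n : ℕ) (h : ∀ t, t + 1 ≤ n → a (t + 1) = (1 + ρ t) * a t) :
    ∀ m t, m + t ≤ n → D m a t = a t * bb ρ m t := by
  intro m
  induction m with
  | zero =>
    intro t _
    show a t = a t * 1
    ring
  | succ m ih =>
    intro t ht
    rw [D_succ', ih (t + 1) (by omega), ih t (by omega), h t (by omega)]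
    show _ = a t * (ρ t * bb ρ m (t + 1) + (bb ρ m (t + 1) - bb ρ m t))
    ring

theorem bb_bound (ρ : ℕ → ℝ) (k : ℕ) (C θ u : ℝ) (hC : 0 ≤ C) (hu : 0 ≤ u) (huθ : u ≤ θ)
    (hρ : ∀ l t, l + t ≤ k → |D l ρ t| ≤ C * θ * u ^ l) :
    ∀ m, m ≤ k → ∀ l t, l + t ≤ k - m → |D l (bb ρ m) t| ≤ (2 ^ k * C + 1) ^ m * θ ^ m * u ^ l := by
  have hθ : 0 ≤ θ := hu.trans huθ
  intro m
  induction m with
  | zero =>
    intro _ l t _
    rw [pow_zero, pow_zero, one_mul, one_mul]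
    rcases Nat.eq_zero_or_pos l with hl | hl
    · subst hl
      show |(1 : ℝ)| ≤ _
      simp
    · obtain ⟨l', rfl⟩ : ∃ l', l = l' + 1 := ⟨l - 1, by omega⟩
      have : D (l' + 1) (bb ρ 0) t = 0 := D_const l' 1 t
      rw [this, abs_zero]
      positivity
  | succ m ih =>
    intro hm l t hlt
    have ih' := ih (by omega)
    have e : D l (bb ρ (m + 1)) t =
        D l (fun s => ρ s * bb ρ m (s + 1)) t + D (l + 1) (bb ρ m) t := by
      have : D (l + 1) (bb ρ m) t = D l (fun s => bb ρ m (s + 1) - bb ρ m s) t := rfl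
      rw [this, ← D_add]
      rfl
    rw [e]
    have h1 := leib u hu l (k - m - 1) ρ (fun s => bb ρ m (s + 1)) (C * θ)
      ((2 ^ k * C + 1) ^ m * θ ^ m) (mul_nonneg hC hθ) (by positivity)
      (fun a s has => hρ a s (by omega))
      (fun a s has => by
        rw [D_shift]
        exact ih' a (s + 1) (by omega)) t (by omega)
    have h2 := ih' (l + 1) t (by omega)
    have h3 : (2 : ℝ) ^ l ≤ 2 ^ k := pow_le_pow_right₀ one_le_two (by omega)
    have h4 : 0 ≤ (2 ^ k * C + 1) ^ m * θ ^ m * u ^ l := by positivity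
    refine (abs_add_le _ _).trans ((add_le_add h1 h2).trans ?_)
    calc 2 ^ l * (C * θ * ((2 ^ k * C + 1) ^ m * θ ^ m)) * u ^ l +
          (2 ^ k * C + 1) ^ m * θ ^ m * u ^ (l + 1)
        = (2 ^ l * (C * θ)) * ((2 ^ k * C + 1) ^ m * θ ^ m * u ^ l) +
          u * ((2 ^ k * C + 1) ^ m * θ ^ m * u ^ l) := by
          rw [pow_succ u l]
          ring
      _ ≤ (2 ^ k * (C * θ)) * ((2 ^ k * C + 1) ^ m * θ ^ m * u ^ l) +
          θ * ((2 ^ k * C + 1) ^ m * θ ^ m * u ^ l) := by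
          refine add_le_add (mul_le_mul_of_nonneg_right ?_ h4) (mul_le_mul_of_nonneg_right huθ h4)
          exact mul_le_mul_of_nonneg_right h3 (mul_nonneg hC hθ)
      _ = _ := by
          rw [pow_succ, pow_succ]
          ring

theorem pow_bound (k R : ℕ) (hk : 1 ≤ k) (hkR : k ≤ R) (x : ℝ) (hx : 0 ≤ x) :
    x ^ k ≤ (2 * (k : ℝ)) ^ k / (R : ℝ) ^ k * (1 + x) ^ R := by
  obtain ⟨q, hq⟩ : ∃ q : ℕ, q = R / k := ⟨_, rfl⟩
  have hq1 : 1 ≤ q := by
    rw [hq]
    exact (Nat.one_le_div_iff (by omega)).2 hkR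
  have hqk : q * k ≤ R := by
    rw [hq]
    exact Nat.div_mul_le_self R k
  have hR2 : R < (q + 1) * k := by
    rw [hq]
    have := Nat.lt_div_mul_add (a := R) (show 0 < k by omega)
    nlinarith
  have hR0 : (0 : ℝ) < R := by exact_mod_cast (by omega : 0 < R)
  have hk0 : (0 : ℝ) < k := by exact_mod_cast (by omega : 0 < k)
  have hR3 : (R : ℝ) ≤ 2 * k * q := by
    have h1 : (R : ℝ) < ((q : ℝ) + 1) * k := by exact_mod_cast hR2
    have h2 : (1 : ℝ) ≤ q := by exact_mod_cast hq1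
    nlinarith
  have h1 : (q * x) ^ k ≤ (1 + x) ^ R := by
    have h2 : 1 + (q : ℝ) * x ≤ (1 + x) ^ q := one_add_mul_le_pow (by linarith) q
    calc (q * x) ^ k ≤ ((1 + x) ^ q) ^ k :=
          pow_le_pow_left₀ (by positivity) (by linarith) k
      _ = (1 + x) ^ (q * k) := by rw [pow_mul]
      _ ≤ (1 + x) ^ R := pow_le_pow_right₀ (by linarith) hqk
  have h2 : (R * x) ^ k ≤ (2 * k) ^ k * (1 + x) ^ R := by
    calc (R * x) ^ k ≤ (2 * k * (q * x)) ^ k := by
          refine pow_le_pow_left₀ (by positivity) ?_ k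
          calc (R : ℝ) * x ≤ (2 * k * q) * x := mul_le_mul_of_nonneg_right hR3 hx
            _ = _ := by ring
      _ = (2 * k) ^ k * (q * x) ^ k := by rw [mul_pow]
      _ ≤ _ := mul_le_mul_of_nonneg_left h1 (by positivity)
  rw [div_mul_eq_mul_div, le_div_iff₀ (by positivity)]
  calc x ^ k * (R : ℝ) ^ k = (R * x) ^ k := by rw [mul_pow]; ring
    _ ≤ _ := h2

/-- the last step: `|ρ| ^ k a(R)` -/
theorem last_step (k R : ℕ) (hR : 1 ≤ R) (a r : ℕ → ℝ) (M : ℝ) (hM : 0 ≤ M)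
    (ha : ∀ t, t ≤ 2 * R → 0 ≤ a t) (hr : ∀ t, t ≤ 2 * R → 0 ≤ r t)
    (har : ∀ t, t < 2 * R → a (t + 1) = r t * a t)
    (hslow : ∀ t e, e ≤ R → t + e ≤ 2 * R → (1 - 1 / (2 * (R : ℝ))) * r t ≤ r (t + e))
    (hrM : |r R - 1| ≤ M) :
    |r R - 1| ^ k * a R ≤ (2 * (2 * (k : ℝ)) ^ k + M ^ k * (k : ℝ) ^ k + 1) / (R : ℝ) ^ k *
      (a 0 + a R + a (2 * R)) := by
  have hR1 : (1 : ℝ) ≤ R := by exact_mod_cast hR
  have hR0 : (0 : ℝ) < R := by linarith
  have ha0 := ha 0 (by omega)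
  have haR := ha R (by omega)
  have ha2 := ha (2 * R) le_rfl
  obtain ⟨h, hh⟩ : ∃ h : ℝ, h = 1 - 1 / (2 * (R : ℝ)) := ⟨_, rfl⟩
  have hh0 : 1 / 2 ≤ h := by
    rw [hh]
    have : 1 / (2 * (R : ℝ)) ≤ 1 / 2 := one_div_le_one_div_of_le (by norm_num) (by linarith)
    linarith
  have hhR : 1 / 2 ≤ h ^ R := by
    have h1 := one_add_mul_le_pow (a := -(1 / (2 * (R : ℝ)))) (by
      have : 1 / (2 * (R : ℝ)) ≤ 1 / 2 := one_div_le_one_div_of_le (by norm_num) (by linarith)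
      linarith) R
    have h2 : 1 + (R : ℝ) * -(1 / (2 * (R : ℝ))) = 1 / 2 := by
      field_simp
      ring
    rw [h2] at h1
    rw [hh]
    exact h1
  -- the growth
  have hup : r R ^ R * a R ≤ 2 * a (2 * R) := by
    have h1 : ∀ e, e ≤ R → (h * r R) ^ e * a R ≤ a (R + e) := by
      intro e
      induction e with
      | zero => intro _; simp
      | succ e ih =>
        intro he
        have h2 := ih (by omega)
        have h3 := har (R + e) (by omega)
        have h4 := hslow R e (by omega) (by omega)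
        rw [← hh] at h4
        rw [← add_assoc, h3, pow_succ]
        calc (h * r R) ^ e * (h * r R) * a R = (h * r R) * ((h * r R) ^ e * a R) := by ring
          _ ≤ r (R + e) * a (R + e) :=
              mul_le_mul h4 h2 (by have := hr R (by omega); positivity) (hr _ (by omega))
    have h2 := h1 R le_rfl
    have h3 : R + R = 2 * R := by ring
    rw [h3, mul_pow] at h2
    have h4 : 0 ≤ r R ^ R * a R := mul_nonneg (pow_nonneg (hr R (by omega)) _) haR
    nlinarith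
  have hdown : a R ≤ 2 * (r R ^ R * a 0) := by
    have h1 : ∀ e, e ≤ R → h ^ e * a e ≤ r R ^ e * a 0 := by
      intro e
      induction e with
      | zero => intro _; simp
      | succ e ih =>
        intro he
        have h2 := ih (by omega)
        have h3 := har e (by omega)
        have h4 := hslow e (R - e) (by omega) (by omega)
        rw [← hh, show e + (R - e) = R by omega] at h4
        rw [h3, pow_succ, pow_succ]
        calc h ^ e * h * (r e * a e) = (h * r e) * (h ^ e * a e) := by ring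
          _ ≤ r R * (r R ^ e * a 0) :=
              mul_le_mul h4 h2 (mul_nonneg (by positivity) (ha e (by omega))) (hr R (by omega))
          _ = _ := by ring
    have h2 := h1 R le_rfl
    nlinarith
  obtain ⟨Sg, hSg⟩ : ∃ Sg : ℝ, Sg = a 0 + a R + a (2 * R) := ⟨_, rfl⟩
  have hSg0 : 0 ≤ Sg := by rw [hSg]; linarith
  rw [← hSg]
  have hRk : 0 < (R : ℝ) ^ k := by positivity
  have hterm1 : 0 ≤ 2 * (2 * (k : ℝ)) ^ k := by positivity
  have hterm2 : 0 ≤ M ^ k * (k : ℝ) ^ k := by positivity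
  rcases Nat.eq_zero_or_pos k with hk | hk
  · subst hk
    simp only [pow_zero, one_mul, mul_one, div_one]
    nlinarith
  rcases Nat.lt_or_ge R k with hRk' | hRk'
  · have h1 : |r R - 1| ^ k ≤ M ^ k := pow_le_pow_left₀ (abs_nonneg _) hrM k
    have h2 : (R : ℝ) ^ k ≤ (k : ℝ) ^ k :=
      pow_le_pow_left₀ hR0.le (by exact_mod_cast hRk'.le) k
    have h3 : M ^ k ≤ (M ^ k * (k : ℝ) ^ k) / (R : ℝ) ^ k := by
      rw [le_div_iff₀ hRk]
      exact mul_le_mul_of_nonneg_left h2 (by positivity)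
    have h4 : (M ^ k * (k : ℝ) ^ k) / (R : ℝ) ^ k ≤
        (2 * (2 * (k : ℝ)) ^ k + M ^ k * (k : ℝ) ^ k + 1) / (R : ℝ) ^ k :=
      div_le_div_of_nonneg_right (by linarith) hRk.le
    exact mul_le_mul (h1.trans (h3.trans h4)) (by rw [hSg]; linarith) haR
      (div_nonneg (by linarith) hRk.le)
  · have h4 : 2 * (2 * (k : ℝ)) ^ k / (R : ℝ) ^ k ≤
        (2 * (2 * (k : ℝ)) ^ k + M ^ k * (k : ℝ) ^ k + 1) / (R : ℝ) ^ k :=
      div_le_div_of_nonneg_right (by linarith) hRk.le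
    refine le_trans ?_ (mul_le_mul_of_nonneg_right h4 hSg0)
    have hrR := hr R (by omega)
    obtain ⟨Q, hQ⟩ : ∃ Q : ℝ, Q = (2 * (k : ℝ)) ^ k / (R : ℝ) ^ k := ⟨_, rfl⟩
    have hQ0 : 0 ≤ Q := by rw [hQ]; positivity
    have h5 : 2 * (2 * (k : ℝ)) ^ k / (R : ℝ) ^ k = 2 * Q := by
      rw [hQ]
      ring
    rw [h5]
    have hx := abs_nonneg (r R - 1)
    have h6 := pow_bound k R hk hRk' (|r R - 1|) hx
    rw [← hQ] at h6
    rcases le_total 0 (r R - 1) with hs | hs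
    · rw [abs_of_nonneg hs] at h6 ⊢
      have h7 : 1 + (r R - 1) = r R := by ring
      rw [h7] at h6
      calc (r R - 1) ^ k * a R ≤ Q * r R ^ R * a R := mul_le_mul_of_nonneg_right h6 haR
        _ = Q * (r R ^ R * a R) := by ring
        _ ≤ Q * (2 * a (2 * R)) := mul_le_mul_of_nonneg_left hup hQ0
        _ ≤ Q * (2 * Sg) := mul_le_mul_of_nonneg_left (by rw [hSg]; linarith) hQ0
        _ = 2 * Q * Sg := by ring
    · rw [abs_of_nonpos hs] at h6 ⊢
      have h7 : (1 + -(r R - 1)) ^ R * r R ^ R ≤ 1 := by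
        rw [← mul_pow]
        refine pow_le_one₀ (mul_nonneg (by linarith) hrR) ?_
        nlinarith [sq_nonneg (r R - 1)]
      have h8 : 0 ≤ (1 + -(r R - 1)) ^ R := pow_nonneg (by linarith) _
      calc (-(r R - 1)) ^ k * a R ≤ Q * (1 + -(r R - 1)) ^ R * a R :=
            mul_le_mul_of_nonneg_right h6 haR
        _ ≤ Q * (1 + -(r R - 1)) ^ R * (2 * (r R ^ R * a 0)) :=
            mul_le_mul_of_nonneg_left hdown (mul_nonneg hQ0 h8)
        _ = 2 * Q * (((1 + -(r R - 1)) ^ R * r R ^ R) * a 0) := by ring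
        _ ≤ 2 * Q * (1 * a 0) :=
            mul_le_mul_of_nonneg_left (mul_le_mul_of_nonneg_right h7 ha0) (by positivity)
        _ ≤ 2 * Q * Sg := mul_le_mul_of_nonneg_left (by rw [hSg]; linarith) (by positivity)

theorem ana : S_ANA := by
  intro k κ hκ
  obtain ⟨C₁, hC₁⟩ : ∃ C₁ : ℝ, C₁ = 2 ^ k * ((κ * (k.factorial : ℝ)) * (κ * (k.factorial : ℝ))) :=
    ⟨_, rfl⟩
  obtain ⟨C₂, hC₂⟩ : ∃ C₂ : ℝ, C₂ = (k + 1) * C₁ + 1 := ⟨_, rfl⟩
  obtain ⟨C₃, hC₃⟩ : ∃ C₃ : ℝ, C₃ = (2 ^ k * C₂ + 1) ^ k := ⟨_, rfl⟩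
  obtain ⟨M, hM⟩ : ∃ M : ℝ, M = (κ : ℝ) ^ 2 * ((k.factorial : ℝ)) ^ 2 + 1 := ⟨_, rfl⟩
  obtain ⟨C₄, hC₄⟩ : ∃ C₄ : ℝ, C₄ = 2 * (2 * (k : ℝ)) ^ k + M ^ k * (k : ℝ) ^ k + 1 := ⟨_, rfl⟩
  have hC₁0 : 0 ≤ C₁ := by rw [hC₁]; positivity
  have hC₂0 : 0 < C₂ := by rw [hC₂]; positivity
  have hC₃0 : 0 < C₃ := by rw [hC₃]; positivity
  have hM0 : 0 ≤ M := by rw [hM]; positivity
  have hC₄0 : 0 < C₄ := by rw [hC₄]; positivity
  refine ⟨C₃ * 2 ^ k * (C₄ + 1), 1000 * κ * (k + 2), by positivity, ?_, ?_⟩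
  · have : 0 < 1000 * κ * (k + 2) := by positivity
    omega
  intro S S' i j R hR hS hS' h1 h2 h3 h4 h5 h6
  have hR1 : (1 : ℝ) ≤ R := by exact_mod_cast hR
  have hR0 : (0 : ℝ) < R := by linarith
  -- elementary inequalities
  have big : ∀ x : ℕ, 1000 * κ * (k + 2) * R ^ 2 ≤ κ * x → 1000 * (k + 2) * R ^ 2 ≤ x := by
    intro x hx
    refine Nat.le_of_mul_le_mul_left ?_ (show 0 < κ by omega)
    calc κ * (1000 * (k + 2) * R ^ 2) = 1000 * κ * (k + 2) * R ^ 2 := by ring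
      _ ≤ κ * x := hx
  have hi : 1000 * (k + 2) * R ^ 2 ≤ i := big i (hS.trans h1)
  have hSi : 1000 * (k + 2) * R ^ 2 ≤ S - i := big _ (hS.trans h3)
  have hj : 1000 * (k + 2) * R ^ 2 ≤ j := big j (hS'.trans h4)
  have hSj : 1000 * (k + 2) * R ^ 2 ≤ S' - j := big _ (hS'.trans h6)
  have hRR : R ≤ R ^ 2 := by nlinarith
  have hx : 2 * R + k + 10 * R ^ 2 ≤ 1000 * (k + 2) * R ^ 2 := by nlinarith
  obtain ⟨a, ha⟩ : ∃ a : ℕ → ℝ, a = bn S S' i j := ⟨_, rfl⟩
  obtain ⟨r, hr⟩ : ∃ r : ℕ → ℝ, r = rr S S' i j := ⟨_, rfl⟩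
  have har : ∀ t, t < 2 * R + k → a (t + 1) = r t * a t := by
    intro t ht
    rw [ha, hr]
    exact bn_succ S S' i j t (by omega) (by omega) h5
  have ha0 : ∀ t, 0 ≤ a t := by
    intro t
    rw [ha]
    unfold bn
    positivity
  have hr0 : ∀ t, t ≤ 2 * R → 0 ≤ r t := by
    intro t ht
    rw [hr]
    exact mul_nonneg (AA_nonneg S i t (by omega)) (AA_nonneg S' (S' - j) t (by omega))
  -- the differences of the ratio
  have hAA : ∀ l t, l + t ≤ k → |D l (fun s => r (R + s)) t| ≤ C₁ * (1 / (R : ℝ) ^ 2) ^ l := by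
    intro l t hlt
    have h7 := leib (1 / (R : ℝ) ^ 2) (by positivity) l k (fun s => AA S i (R + s))
      (fun s => AA S' (S' - j) (R + s)) (κ * (k.factorial : ℝ)) (κ * (k.factorial : ℝ))
      (by positivity) (by positivity)
      (fun a t hat => AA_bound k κ S i R hκ hR h1 (by nlinarith) (by omega) a t hat)
      (fun a t hat => AA_bound k κ S' (S' - j) R hκ hR h6 (by nlinarith) (by omega) a t hat)
      t hlt
    have h8 : (fun s => r (R + s)) = fun s => AA S i (R + s) * AA S' (S' - j) (R + s) := by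
      rw [hr]
      rfl
    rw [h8]
    refine h7.trans (mul_le_mul_of_nonneg_right ?_ (by positivity))
    rw [hC₁]
    refine mul_le_mul_of_nonneg_right ?_ (by positivity)
    exact pow_le_pow_right₀ one_le_two (by omega)
  obtain ⟨ρ, hρ⟩ : ∃ ρ : ℕ → ℝ, ρ = fun s => r (R + s) - 1 := ⟨_, rfl⟩
  have hρ0 : ρ 0 = r R - 1 := by rw [hρ]; rfl
  obtain ⟨θ, hθ⟩ : ∃ θ : ℝ, θ = |ρ 0| + 1 / (R : ℝ) := ⟨_, rfl⟩
  have hu0 : (0 : ℝ) ≤ 1 / (R : ℝ) := by positivity
  have hu1 : 1 / (R : ℝ) ≤ 1 := by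
    rw [div_le_one hR0]
    exact hR1
  have huθ : 1 / (R : ℝ) ≤ θ := by
    rw [hθ]
    linarith [abs_nonneg (ρ 0)]
  have hθ0 : 0 ≤ θ := hu0.trans huθ
  have hDρ : ∀ l t, D (l + 1) ρ t = D (l + 1) (fun s => r (R + s)) t := by
    intro l t
    have h7 : ρ = fun s => r (R + s) + (-1) := by
      rw [hρ]
      funext s
      ring
    rw [h7, D_add, D_const, add_zero]
  have hpw : ∀ l : ℕ, (1 / (R : ℝ) ^ 2) ^ (l + 1) ≤ 1 / (R : ℝ) * (1 / (R : ℝ)) ^ (l + 1) := by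
    intro l
    have h7 : (1 / (R : ℝ) ^ 2) ^ (l + 1) = (1 / (R : ℝ)) ^ (l + 1) * (1 / (R : ℝ)) ^ (l + 1) := by
      rw [← mul_pow]
      congr 1
      field_simp
    rw [h7]
    refine mul_le_mul_of_nonneg_right ?_ (by positivity)
    calc (1 / (R : ℝ)) ^ (l + 1) ≤ (1 / (R : ℝ)) ^ 1 := pow_le_pow_of_le_one hu0 hu1 (by omega)
      _ = 1 / (R : ℝ) := pow_one _
  have hρ1 : ∀ l t, l + 1 + t ≤ k → |D (l + 1) ρ t| ≤ C₁ * (1 / (R : ℝ) * (1 / (R : ℝ)) ^ (l + 1)) := by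
    intro l t hlt
    rw [hDρ]
    exact (hAA (l + 1) t hlt).trans (mul_le_mul_of_nonneg_left (hpw l) hC₁0)
  have hρt : ∀ t, t ≤ k → |ρ t| ≤ |ρ 0| + t * (C₁ * (1 / (R : ℝ))) := by
    intro t
    induction t with
    | zero => intro _; simp
    | succ t ih =>
      intro ht
      have h7 := ih (by omega)
      have h8 := hρ1 0 t (by omega)
      have h9 : D (0 + 1) ρ t = ρ (t + 1) - ρ t := rfl
      rw [h9, zero_add, pow_one] at h8
      have h10 : 1 / (R : ℝ) * (1 / (R : ℝ)) ≤ 1 / (R : ℝ) := mul_le_of_le_one_right hu0 hu1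
      have h11 := abs_sub_abs_le_abs_sub (ρ (t + 1)) (ρ t)
      have h12 : C₁ * (1 / (R : ℝ) * (1 / (R : ℝ))) ≤ C₁ * (1 / (R : ℝ)) :=
        mul_le_mul_of_nonneg_left h10 hC₁0
      push_cast
      linarith
  have hρall : ∀ l t, l + t ≤ k → |D l ρ t| ≤ C₂ * θ * (1 / (R : ℝ)) ^ l := by
    intro l t hlt
    rcases Nat.eq_zero_or_pos l with hl | hl
    · subst hl
      rw [pow_zero, mul_one]
      show |ρ t| ≤ _
      have h7 := hρt t (by omega)
      have h8 : (t : ℝ) ≤ k := by exact_mod_cast (by omega : t ≤ k)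
      have h9 : (t : ℝ) * (C₁ * (1 / (R : ℝ))) ≤ k * (C₁ * (1 / (R : ℝ))) :=
        mul_le_mul_of_nonneg_right h8 (by positivity)
      have h10 : (0 : ℝ) ≤ |ρ 0| := abs_nonneg _
      rw [hC₂, hθ]
      have h11 : 0 ≤ (k : ℝ) * C₁ * |ρ 0| := by positivity
      have h12 : 0 ≤ C₁ * |ρ 0| := by positivity
      have h13 : 0 ≤ C₁ * (1 / (R : ℝ)) := by positivity
      nlinarith
    · obtain ⟨m, rfl⟩ : ∃ m, l = m + 1 := ⟨l - 1, by omega⟩
      refine (hρ1 m t hlt).trans ?_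
      have h7 : C₁ * (1 / (R : ℝ)) ≤ C₂ * θ := by
        refine mul_le_mul ?_ huθ hu0 hC₂0.le
        rw [hC₂]
        nlinarith [(Nat.cast_nonneg k : (0 : ℝ) ≤ k)]
      calc C₁ * (1 / (R : ℝ) * (1 / (R : ℝ)) ^ (m + 1))
          = C₁ * (1 / (R : ℝ)) * (1 / (R : ℝ)) ^ (m + 1) := by ring
        _ ≤ _ := mul_le_mul_of_nonneg_right h7 (by positivity)
  -- the differences of the sizes
  have hD1 : D k (fun s => a (R + s)) 0 = a R * bb ρ k 0 := by
    refine D_bb (fun s => a (R + s)) ρ k ?_ k 0 (by omega)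
    intro t ht
    have h7 := har (R + t) (by omega)
    show a (R + (t + 1)) = _
    rw [← add_assoc, h7, hρ]
    ring
  have hbb := bb_bound ρ k C₂ θ (1 / (R : ℝ)) hC₂0.le hu0 huθ hρall k le_rfl 0 0 (by omega)
  rw [pow_zero, mul_one, ← hC₃] at hbb
  have hbb' : |bb ρ k 0| ≤ C₃ * θ ^ k := hbb
  have hθk : θ ^ k ≤ 2 ^ k * (|ρ 0| ^ k + 1 / (R : ℝ) ^ k) := by
    rw [hθ]
    have h7 : ∀ x y : ℝ, 0 ≤ x → 0 ≤ y → (x + y) ^ k ≤ 2 ^ k * (x ^ k + y ^ k) := by
      intro x y hx hy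
      have hxk : 0 ≤ x ^ k := pow_nonneg hx k
      have hyk : 0 ≤ y ^ k := pow_nonneg hy k
      have h2k : (0 : ℝ) < 2 ^ k := by positivity
      rcases le_total x y with hxy | hxy
      · calc (x + y) ^ k ≤ (2 * y) ^ k := pow_le_pow_left₀ (by linarith) (by linarith) k
          _ = 2 ^ k * y ^ k := mul_pow _ _ _
          _ ≤ _ := mul_le_mul_of_nonneg_left (by linarith) h2k.le
      · calc (x + y) ^ k ≤ (2 * x) ^ k := pow_le_pow_left₀ (by linarith) (by linarith) k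
          _ = 2 ^ k * x ^ k := mul_pow _ _ _
          _ ≤ _ := mul_le_mul_of_nonneg_left (by linarith) h2k.le
    have h8 := h7 |ρ 0| (1 / (R : ℝ)) (abs_nonneg _) hu0
    rwa [div_pow 1 (R : ℝ) k, one_pow] at h8
  -- the slow variation
  have hslow : ∀ t e, e ≤ R → t + e ≤ 2 * R → (1 - 1 / (2 * (R : ℝ))) * r t ≤ r (t + e) := by
    intro t e he hte
    have h7 := AA_slow S i R t e hR (by omega) (by omega) he hte
    have h8 := AA_slow S' (S' - j) R t e hR (by omega) (by omega) he hte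
    have h9 := AA_nonneg S i t (by omega)
    have h10 := AA_nonneg S' (S' - j) t (by omega)
    obtain ⟨δ, hδ⟩ : ∃ δ : ℝ, δ = 1 / (8 * (R : ℝ)) := ⟨_, rfl⟩
    have hδ0 : 0 ≤ δ := by rw [hδ]; positivity
    have hδ1 : δ ≤ 1 := by
      rw [hδ, div_le_one (by positivity)]
      linarith
    rw [← hδ] at h7 h8
    have h11 : 1 - 1 / (2 * (R : ℝ)) = 1 - 4 * δ := by
      rw [hδ]
      field_simp
      ring
    have h12 : 1 - 4 * δ ≤ (1 - δ) ^ 4 := by
      have := one_add_mul_le_pow (a := -δ) (by linarith) 4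
      calc 1 - 4 * δ = 1 + ((4 : ℕ) : ℝ) * -δ := by push_cast; ring
        _ ≤ (1 + -δ) ^ 4 := this
        _ = _ := by ring
    rw [h11, hr]
    show (1 - 4 * δ) * (AA S i t * AA S' (S' - j) t) ≤ AA S i (t + e) * AA S' (S' - j) (t + e)
    calc (1 - 4 * δ) * (AA S i t * AA S' (S' - j) t)
        ≤ (1 - δ) ^ 4 * (AA S i t * AA S' (S' - j) t) :=
          mul_le_mul_of_nonneg_right h12 (mul_nonneg h9 h10)
      _ = ((1 - δ) ^ 2 * AA S i t) * ((1 - δ) ^ 2 * AA S' (S' - j) t) := by ring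
      _ ≤ _ := mul_le_mul h7 h8 (mul_nonneg (by positivity) h10)
          (le_trans (mul_nonneg (by positivity) h9) h7)
  have hrM : |r R - 1| ≤ M := by
    have h7 := AA_bound k κ S i R hκ hR h1 (by nlinarith) (by omega) 0 0 (by omega)
    have h8 := AA_bound k κ S' (S' - j) R hκ hR h6 (by nlinarith) (by omega) 0 0 (by omega)
    rw [pow_zero, mul_one] at h7 h8
    have h7' : |AA S i R| ≤ κ * (k.factorial : ℝ) := h7
    have h8' : |AA S' (S' - j) R| ≤ κ * (k.factorial : ℝ) := h8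
    have h9 : |r R| ≤ (κ * (k.factorial : ℝ)) * (κ * (k.factorial : ℝ)) := by
      rw [hr]
      show |AA S i R * AA S' (S' - j) R| ≤ _
      rw [abs_mul]
      exact mul_le_mul h7' h8' (abs_nonneg _) (by positivity)
    rw [hM]
    refine (abs_sub _ _).trans ?_
    rw [abs_one]
    nlinarith
  have hlast := last_step k R hR a r M hM0 (fun t _ => ha0 t) hr0
    (fun t ht => har t (by omega)) hslow hrM
  rw [← hC₄] at hlast
  -- the conclusion
  have hsum := D_sum k (fun s => a (R + s)) 0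
  have hgoal : |∑ d ∈ range (k + 1), (-1 : ℝ) ^ d * (k.choose d : ℝ) * bn S S' i j (R + d)| =
      |D k (fun s => a (R + s)) 0| := by
    rw [← hsum]
    congr 1
    refine sum_congr rfl fun d _ => ?_
    rw [zero_add, ha]
  rw [hgoal, hD1, abs_mul, abs_of_nonneg (ha0 R)]
  have hRk : 0 < (R : ℝ) ^ k := by positivity
  obtain ⟨Sg, hSb⟩ : ∃ Sg : ℝ, Sg = bn S S' i j 0 + bn S S' i j R + bn S S' i j (2 * R) := ⟨_, rfl⟩
  have hSg : Sg = a 0 + a R + a (2 * R) := by rw [hSb, ha]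
  rw [← hSb]
  rw [← hSg, ← hρ0] at hlast
  have haSg : a R ≤ Sg := by
    rw [hSg]
    linarith [ha0 0, ha0 (2 * R)]
  have hSg0 : 0 ≤ Sg := (ha0 R).trans haSg
  calc a R * |bb ρ k 0| ≤ a R * (C₃ * (2 ^ k * (|ρ 0| ^ k + 1 / (R : ℝ) ^ k))) :=
        mul_le_mul_of_nonneg_left
          (hbb'.trans (mul_le_mul_of_nonneg_left hθk hC₃0.le)) (ha0 R)
    _ = C₃ * 2 ^ k * (|ρ 0| ^ k * a R + 1 / (R : ℝ) ^ k * a R) := by ring
    _ ≤ C₃ * 2 ^ k * (C₄ / (R : ℝ) ^ k * Sg + 1 / (R : ℝ) ^ k * Sg) := by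
        refine mul_le_mul_of_nonneg_left (add_le_add hlast ?_) (by positivity)
        exact mul_le_mul_of_nonneg_left haSg (by positivity)
    _ = _ := by ring

end

end Pool.Agent.N477.TR
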